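import Pool.Agent.H33.G.R_seed8.H366R2.KGenT

/-! Counting theorem for `3x+k` maps with control of the sign. -/

set_option autoImplicit false

namespace Pool.Agent.H366R2.KGen

open Pool.Agent.H412R2 Finset Filter Topology

/-- the counting theorem, with the sign of the counted integers -/
theorem core_sign (k : ℤ) (hk2 : k % 2 = 1) (hk3 : ¬ (3 : ℤ) ∣ k)
    (σ : ℝ) {c C C₁ : ℝ} (hc : 0 < c) (hC : 0 < C) (hC₁ : 0 < C₁)
    (hmain : ∀ y : ℤ, ¬ (3 : ℤ) ∣ y → ∀ B : ℝ, 1 ≤ B →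
      ∃ (E n s : ℕ) (G : Finset ℤ), (n : ℝ) ≤ C * (1 + Real.log B) ∧ (2 : ℝ) ^ s ≤ B * 3 ^ n ∧
        (∀ z ∈ G, z ∈ tr 3 E n s y ∧ |(z : ℝ) - 2 ^ s / 3 ^ n * y| ≤ C₁ * (2 ^ s / 3 ^ n)) ∧
        c * B ^ σ ≤ G.card)
    (a : ℤ) (ha : ¬ (3 : ℤ) ∣ a) (hbig : |(k : ℝ)| * C₁ < |(a : ℝ)|) :
    ∃ c' B₀ : ℝ, 0 < c' ∧ 1 ≤ B₀ ∧ ∀ B : ℝ, B₀ ≤ B → ∃ F : Finset ℤ,
      (∀ z ∈ F, (|z| : ℝ) ≤ B ∧ 0 < z * a ∧ ∃ j, (TK k)^[j] z = a) ∧ c' * B ^ σ ≤ F.card := by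
  classical
  have hk0 : k ≠ 0 := by rintro rfl; simp at hk2
  set A : ℝ := |(k : ℝ)| * C₁ + |(a : ℝ)| + 1 with hA
  have hA1 : 1 ≤ A := by
    rw [hA]
    have : 0 ≤ |(k : ℝ)| * C₁ := by positivity
    have := abs_nonneg (a : ℝ)
    linarith
  have hA0 : 0 < A := by linarith
  refine ⟨c / A ^ σ, A, by positivity, hA1, ?_⟩
  intro B hB
  have hB0 : 0 < B := by linarith
  set B' : ℝ := B / A with hB'
  have hB'1 : 1 ≤ B' := by rw [hB', le_div_iff₀ hA0]; linarith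
  set N₀ : ℕ := ⌈C * (1 + Real.log B')⌉₊ with hN₀
  have hlB' : 0 ≤ Real.log B' := Real.log_nonneg hB'1
  have hN₀1 : 1 ≤ N₀ := by
    rw [hN₀, Nat.one_le_ceil_iff]
    positivity
  have hcop : IsCoprime k ((3 : ℤ) ^ N₀) := by
    apply IsCoprime.pow_right
    rw [Int.isCoprime_iff_gcd_eq_one]
    have := (Nat.Prime.coprime_iff_not_dvd Nat.prime_three (n := k.natAbs)).mpr
      (fun h => hk3 (by rwa [← Int.natCast_dvd] at h))
    rw [Int.gcd_comm]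
    exact this
  obtain ⟨u, v, huv⟩ := hcop
  set y : ℤ := a * u with hy
  have hyk : a - k * y = 3 ^ N₀ * (a * v) := by
    have : a = a * (u * k + v * 3 ^ N₀) := by rw [huv, mul_one]
    rw [hy]
    linear_combination this
  have hy3 : ¬ (3 : ℤ) ∣ y := by
    intro h
    apply ha
    have h1 : (3 : ℤ) ∣ 3 ^ N₀ * (a * v) := Dvd.dvd.mul_right (dvd_pow_self 3 (by omega)) _
    have h2 : (3 : ℤ) ∣ k * y := Dvd.dvd.mul_left h k
    have h3 : a = 3 ^ N₀ * (a * v) + k * y := by linarith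
    rw [h3]
    exact dvd_add h1 h2
  obtain ⟨E, n, s, G, h1, h2, h3, h4⟩ := hmain y hy3 B' hB'1
  have hn : n ≤ N₀ := by
    have : (n : ℝ) ≤ N₀ := h1.trans (Nat.le_ceil _)
    exact_mod_cast this
  set t : ℤ := 3 ^ (N₀ - n) * (a * v) with ht
  have hyt : a - k * y = 3 ^ n * t := by
    have e0 : (3 : ℤ) ^ N₀ = 3 ^ n * 3 ^ (N₀ - n) := by rw [← pow_add, Nat.add_sub_cancel' hn]
    rw [hyk, ht, e0]
    ring
  have hinj : Function.Injective (fun z : ℤ => k * z + 2 ^ s * t) := by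
    intro z z' h
    simp only [add_left_inj] at h
    exact mul_left_cancel₀ hk0 h
  refine ⟨G.image (fun z => k * z + 2 ^ s * t), ?_, ?_⟩
  · intro w hw
    rw [mem_image] at hw
    obtain ⟨z, hz, rfl⟩ := hw
    obtain ⟨h5, h6⟩ := h3 z hz
    set ρ : ℝ := 2 ^ s / 3 ^ n with hρ
    have hρ0 : 0 < ρ := by rw [hρ]; positivity
    have hρB : ρ ≤ B' := by rw [hρ, div_le_iff₀ (by positivity)]; exact h2
    have e1 : ((k * z + 2 ^ s * t : ℤ) : ℝ) = k * ((z : ℝ) - ρ * y) + ρ * a := by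
      have e2 : (a : ℝ) - k * y = 3 ^ n * t := by exact_mod_cast hyt
      have e3 : (2 : ℝ) ^ s * t = ρ * ((a : ℝ) - k * y) := by
        rw [e2, hρ]; field_simp
      push_cast
      rw [e3]
      ring
    have e4 : |(k : ℝ) * ((z : ℝ) - ρ * y)| ≤ |(k : ℝ)| * (C₁ * ρ) := by
      rw [abs_mul]
      gcongr
    refine ⟨?_, ?_, transfer_reach hk2 hyt h5⟩
    · rw [e1]
      calc |(k : ℝ) * ((z : ℝ) - ρ * y) + ρ * a| ≤ |(k : ℝ)| * (C₁ * ρ) + ρ * |(a : ℝ)| := by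
            refine (abs_add_le _ _).trans ?_
            rw [abs_mul ρ, abs_of_pos hρ0]
            linarith
        _ = ρ * (|(k : ℝ)| * C₁ + |(a : ℝ)|) := by ring
        _ ≤ B' * A := by
            apply mul_le_mul hρB (by rw [hA]; linarith) (by positivity) (by linarith)
        _ = B := by rw [hB']; field_simp
    · have e5 : (0 : ℝ) < ((k * z + 2 ^ s * t : ℤ) : ℝ) * a := by
        rw [e1]
        have e6 : (k * ((z : ℝ) - ρ * y) + ρ * a) * a =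
            (k * ((z : ℝ) - ρ * y)) * a + ρ * (|(a : ℝ)| * |(a : ℝ)|) := by
          rw [abs_mul_abs_self]; ring
        rw [e6]
        have e7 : -(|(k : ℝ)| * (C₁ * ρ) * |(a : ℝ)|) ≤ (k * ((z : ℝ) - ρ * y)) * a := by
          have e8 : |(k * ((z : ℝ) - ρ * y)) * a| ≤ |(k : ℝ)| * (C₁ * ρ) * |(a : ℝ)| := by
            rw [abs_mul]
            exact mul_le_mul_of_nonneg_right e4 (abs_nonneg _)
          exact (abs_le.mp e8).1
        have hapos : 0 < |(a : ℝ)| := by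
          have : 0 ≤ |(k : ℝ)| * C₁ := by positivity
          linarith
        have e9 : 0 < ρ * |(a : ℝ)| * (|(a : ℝ)| - |(k : ℝ)| * C₁) := by
          apply mul_pos (by positivity)
          linarith
        nlinarith
      exact_mod_cast e5
  · rw [card_image_of_injective _ hinj]
    refine le_trans (le_of_eq ?_) h4
    rw [hB', Real.div_rpow hB0.le hA0.le]
    ring

/-- a large preimage of `a` of the same sign, not divisible by 3 -/
theorem large_preimage (k : ℤ) (hk2 : k % 2 = 1) (hk3 : ¬ (3 : ℤ) ∣ k) (a : ℤ) (ha : ¬ (3 : ℤ) ∣ a)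
    (X : ℝ) : ∃ b : ℤ, ¬ (3 : ℤ) ∣ b ∧ X < |(b : ℝ)| ∧ 0 < b * a ∧ ∃ j, (TK k)^[j] b = a := by
  have hr : ∃ r : ℕ, (2 : ℤ) ^ r * a % 9 = (k + 3) % 9 := by
    have ha9 : a % 9 = 1 ∨ a % 9 = 2 ∨ a % 9 = 4 ∨ a % 9 = 5 ∨ a % 9 = 7 ∨ a % 9 = 8 := by omega
    have hk9 : (k + 3) % 9 = 1 ∨ (k + 3) % 9 = 2 ∨ (k + 3) % 9 = 4 ∨ (k + 3) % 9 = 5 ∨
      (k + 3) % 9 = 7 ∨ (k + 3) % 9 = 8 := by omega
    have key : ∀ u ∈ ({1, 2, 4, 5, 7, 8} : Finset ℤ), ∀ v ∈ ({1, 2, 4, 5, 7, 8} : Finset ℤ),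
        ∃ r ∈ Finset.range 6, (2 : ℤ) ^ r * u % 9 = v := by decide
    obtain ⟨r, -, hr⟩ := key (a % 9) (by simpa using ha9) ((k + 3) % 9) (by simpa using hk9)
    refine ⟨r, ?_⟩
    rw [← hr, Int.mul_emod, Int.mul_emod (2 ^ r) (a % 9)]
    simp
  obtain ⟨r, hr⟩ := hr
  obtain ⟨E, hE⟩ := pow_unbounded_of_one_lt (3 * |X| + |(k : ℝ)| + 1) (by norm_num : (1 : ℝ) < 2)
  set e : ℕ := r + 6 * (E + 1) with he
  have h64 : (2 : ℤ) ^ (6 * (E + 1)) % 9 = 1 := by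
    rw [pow_mul]
    have : ((2 : ℤ) ^ 6) % 9 = 1 := by norm_num
    have h1 : ((2 : ℤ) ^ 6) ^ (E + 1) ≡ 1 ^ (E + 1) [ZMOD 9] := Int.ModEq.pow _ (by decide)
    rw [one_pow] at h1
    exact h1
  have he9 : (2 : ℤ) ^ e * a % 9 = (k + 3) % 9 := by
    have h1 : (2 : ℤ) ^ e * a = 2 ^ (6 * (E + 1)) * (2 ^ r * a) := by rw [he, pow_add]; ring
    rw [h1, Int.mul_emod, h64, hr]
    simp
  obtain ⟨b, hb⟩ : ∃ b, 3 * b + k = 2 ^ e * a := ⟨(2 ^ e * a - k) / 3, by omega⟩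
  have hb3 : ¬ (3 : ℤ) ∣ b := by omega
  have ha0 : a ≠ 0 := by rintro rfl; simp at ha
  have haR : (1 : ℝ) ≤ |(a : ℝ)| := by
    have : (1 : ℤ) ≤ |a| := Int.one_le_abs ha0
    exact_mod_cast this
  have hpow : (3 * |X| + |(k : ℝ)| + 1) < 2 ^ e := by
    refine hE.trans_le ?_
    apply pow_le_pow_right₀ (by norm_num)
    omega
  have hbR : 3 * (b : ℝ) + k = 2 ^ e * a := by exact_mod_cast hb
  refine ⟨b, hb3, ?_, ?_, ?_⟩
  · have h1 : (2 : ℝ) ^ e * |(a : ℝ)| ≤ 3 * |(b : ℝ)| + |(k : ℝ)| := by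
      have : |(2 : ℝ) ^ e * a| = 2 ^ e * |(a : ℝ)| := by
        rw [abs_mul, abs_of_pos (by positivity : (0 : ℝ) < 2 ^ e)]
      rw [← this, ← hbR]
      refine (abs_add_le _ _).trans ?_
      rw [abs_mul]
      norm_num
    have h2 : (2 : ℝ) ^ e ≤ 2 ^ e * |(a : ℝ)| := le_mul_of_one_le_right (by positivity) haR
    have h3 := le_abs_self X
    linarith
  · have h5 : (0 : ℝ) < (b : ℝ) * a := by
      have h6 : 3 * ((b : ℝ) * a) = 2 ^ e * (|(a : ℝ)| * |(a : ℝ)|) - k * a := by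
        rw [abs_mul_abs_self]
        linear_combination (a : ℝ) * hbR
      have h7 : (k : ℝ) * a ≤ |(k : ℝ)| * |(a : ℝ)| := by
        rw [← abs_mul]
        exact le_abs_self _
      have h8 : |(k : ℝ)| < 2 ^ e := by
        have := abs_nonneg X
        linarith
      have h9 : |(k : ℝ)| * |(a : ℝ)| < 2 ^ e * (|(a : ℝ)| * |(a : ℝ)|) := by
        calc |(k : ℝ)| * |(a : ℝ)| < 2 ^ e * |(a : ℝ)| := by
              apply mul_lt_mul_of_pos_right h8 (by linarith)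
          _ ≤ 2 ^ e * (|(a : ℝ)| * |(a : ℝ)|) := by
              apply mul_le_mul_of_nonneg_left _ (by positivity)
              nlinarith
      linarith
    exact_mod_cast h5
  · obtain ⟨e', he'⟩ : ∃ e', e = e' + 1 := ⟨e - 1, by omega⟩
    refine ⟨e' + 1, ?_⟩
    rw [Function.iterate_add_apply, Function.iterate_one]
    have h1 : 3 * b + k = 2 * (2 ^ e' * a) := by rw [hb, he']; ring
    have h2 : TK k b = 2 ^ e' * a := by
      unfold TK
      rw [if_neg (by omega)]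
      omega
    rw [h2, TK_halves]

/-- main theorem: growth exponent of the backward trees of the `3x+k` maps, integers of the sign
of the root -/
theorem main_count_sign (k : ℤ) (hk2 : k % 2 = 1) (hk3 : ¬ (3 : ℤ) ∣ k) (a : ℤ)
    (ha : ¬ (3 : ℤ) ∣ a) (σ : ℝ) (hσ : 0 < σ) (hσ1 : σ < 1) :
    ∃ c B₀ : ℝ, 0 < c ∧ 1 ≤ B₀ ∧ ∀ B : ℝ, B₀ ≤ B → ∃ F : Finset ℤ,
      (∀ z ∈ F, (|z| : ℝ) ≤ B ∧ (0 < z * a ∧ ∃ j, (TK k)^[j] z = a)) ∧ c * B ^ σ ≤ F.card := by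
  obtain ⟨c, C, C₁, hc, hC, hC₁, hmain⟩ := uniform_words σ hσ hσ1
  obtain ⟨b, hb3, hbX, hba, j, hj⟩ := large_preimage k hk2 hk3 a ha (|(k : ℝ)| * C₁)
  obtain ⟨c', B₀, h1, h2, H⟩ := core_sign k hk2 hk3 σ hc hC hC₁ hmain b hb3 hbX
  refine ⟨c', B₀, h1, h2, fun B hB => ?_⟩
  obtain ⟨F, hF1, hF2⟩ := H B hB
  refine ⟨F, fun z hz => ?_, hF2⟩
  obtain ⟨h3, h4, i, hi⟩ := hF1 z hz
  refine ⟨h3, ?_, j + i, ?_⟩
  · have h5 : 0 < (z * a) * (b * b) := by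
      have : (z * a) * (b * b) = (z * b) * (b * a) := by ring
      rw [this]
      exact mul_pos h4 hba
    have h6 : 0 ≤ b * b := mul_self_nonneg b
    by_contra h
    push Not at h
    have := mul_nonpos_of_nonpos_of_nonneg h h6
    linarith
  · rw [Function.iterate_add_apply, hi, hj]

/-- `|k|` and `-|k|` are periodic -/
theorem per_sign {k : ℤ} (hk2 : k % 2 = 1) (ε : ℤ) (hε : ε = 1 ∨ ε = -1) :
    (TK k)^[2] (ε * k) = ε * k := by
  rcases hε with rfl | rfl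
  · rw [one_mul]
    exact cycle_k hk2
  · have h1 : TK k (-1 * k) = -1 * k := by
      unfold TK
      rw [if_neg (by omega)]
      omega
    simp only [Function.iterate_succ, Function.iterate_zero, Function.comp_apply, id_eq]
    rw [h1, h1]

/-- eventually periodic integers of a given sign -/
theorem evper_sign (k : ℤ) (hk2 : k % 2 = 1) (hk3 : ¬ (3 : ℤ) ∣ k) (δ : ℤ) (hδ : δ = 1 ∨ δ = -1)
    (σ : ℝ) (hσ : 0 < σ) (hσ1 : σ < 1) :
    ∃ c B₀ : ℝ, 0 < c ∧ 1 ≤ B₀ ∧ ∀ B : ℝ, B₀ ≤ B → ∃ F : Finset ℤ,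
      (∀ z ∈ F, (|z| : ℝ) ≤ B ∧ (0 < δ * z ∧ ∃ m p : ℕ, 1 ≤ p ∧ (TK k)^[m + p] z = (TK k)^[m] z)) ∧
        c * B ^ σ ≤ F.card := by
  have hk0 : k ≠ 0 := by rintro rfl; simp at hk2
  -- `ε k` has the sign `δ`
  obtain ⟨ε, hε, hs⟩ : ∃ ε : ℤ, (ε = 1 ∨ ε = -1) ∧ 0 < δ * (ε * k) := by
    rcases hδ with rfl | rfl <;> rcases lt_or_gt_of_ne hk0 with h | h
    · exact ⟨-1, Or.inr rfl, by omega⟩
    · exact ⟨1, Or.inl rfl, by omega⟩
    · exact ⟨1, Or.inl rfl, by omega⟩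
    · exact ⟨-1, Or.inr rfl, by omega⟩
  have h3 : ¬ (3 : ℤ) ∣ ε * k := by
    rcases hε with rfl | rfl <;> omega
  obtain ⟨c, B₀, h1, h2, H⟩ := main_count_sign k hk2 hk3 (ε * k) h3 σ hσ hσ1
  refine ⟨c, B₀, h1, h2, fun B hB => ?_⟩
  obtain ⟨F, hF1, hF2⟩ := H B hB
  refine ⟨F, fun z hz => ?_, hF2⟩
  obtain ⟨a1, a2, j, a3⟩ := hF1 z hz
  refine ⟨a1, ?_, j, 2, by norm_num, ?_⟩
  · rcases hδ with rfl | rfl
    · have h4 : 0 < ε * k := by linarith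
      have h5 : 0 < z := by
        by_contra h
        push Not at h
        have := mul_nonpos_of_nonpos_of_nonneg h h4.le
        linarith
      linarith
    · have h4 : ε * k < 0 := by linarith
      have h5 : z < 0 := by
        by_contra h
        push Not at h
        have := mul_nonpos_of_nonneg_of_nonpos h h4.le
        linarith
      linarith
  · rw [add_comm j 2, Function.iterate_add_apply, a3, per_sign hk2 ε hε]

end Pool.Agent.H366R2.KGen
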