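import Pool.Agent.H33.G.R_seed8.H320R2.PDCountOf

/-! The counting lemma of the positive density theorem, uniform in the root: with this form one also
treats the maps `3x+k` (validity for `3x+k` at `x` is validity for `3x+1` at `x/k` modulo `3^n`). -/

set_option autoImplicit false

namespace Pool.Agent.H366R2.PDK

open Finset Pool.Agent.H320R2.PD Pool.Agent.H320R2.PD.Cnt

/-- the number of nice valid words in the window -/
theorem count_window_unif (quenched : QStmt) {N0 N : ℕ} (hN : N0 ≤ N) :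
    ∃ K : ℝ, 1 ≤ K ∧ ∀ Y : ℝ, K ≤ Y → ∀ x : ℤ,
      (∀ A n : ℕ, N ≤ n → 3 * n ≤ A → (1 / 4 : ℝ) ≤ U N0 A n x (fun _ => 1)) →
      ∃ A : ℕ, ∃ S : Finset (List ℕ),
      (∀ w ∈ S, w ∈ VW N0 A w.length x ∧ (2 : ℝ) ^ w.sum / 3 ^ w.length ≤ Y ∧
        N0 ≤ w.length ∧ (w.length : ℝ) ≤ 17 * Real.log Y) ∧
        Y / 64 ≤ S.card := by
  classical
  obtain ⟨N1, C, hC, hq⟩ := quenched N0
  -- how large `n0` must be
  set K0 : ℕ := max (max N N1) (max 11200 (⌈8704 * C⌉₊)) with hK0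
  refine ⟨2 * 4 ^ K0, ?_, fun Y hY x h => ?_⟩
  · have : (1 : ℝ) ≤ 4 ^ K0 := one_le_pow₀ (by norm_num)
    linarith
  have hY2 : (4 : ℝ) ^ K0 ≤ Y / 2 := by linarith
  have hYpos : 0 < Y := by
    have : (0 : ℝ) < 4 ^ K0 := by positivity
    linarith
  set n0 : ℕ := Nat.log 4 ⌊Y / 2⌋₊ with hn0
  have hfl : 4 ^ K0 ≤ ⌊Y / 2⌋₊ := Nat.le_floor (by exact_mod_cast hY2)
  have hfl0 : ⌊Y / 2⌋₊ ≠ 0 := by
    have : 0 < 4 ^ K0 := by positivity
    omega
  have hK0n : K0 ≤ n0 := Nat.le_log_of_pow_le (by norm_num) hfl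
  have hlow : (4 : ℝ) ^ n0 ≤ Y / 2 := by
    have h1 : 4 ^ n0 ≤ ⌊Y / 2⌋₊ := Nat.pow_log_le_self 4 hfl0
    have h2 : ((4 ^ n0 : ℕ) : ℝ) ≤ (⌊Y / 2⌋₊ : ℝ) := by exact_mod_cast h1
    have h3 : ((⌊Y / 2⌋₊ : ℕ) : ℝ) ≤ Y / 2 := Nat.floor_le (by linarith)
    push_cast at h2
    linarith
  have hup : Y / 2 < (4 : ℝ) ^ (n0 + 1) := by
    have h1 : ⌊Y / 2⌋₊ < 4 ^ (n0 + 1) := Nat.lt_pow_succ_log_self (by norm_num) _
    have h2 : ((⌊Y / 2⌋₊ : ℕ) : ℝ) + 1 ≤ (4 : ℝ) ^ (n0 + 1) := by exact_mod_cast h1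
    have h3 := Nat.lt_floor_add_one (Y / 2)
    linarith
  have k1 : N ≤ n0 := ((le_max_left _ _).trans (le_max_left _ _)).trans hK0n
  have k2 : N1 ≤ n0 := ((le_max_right _ _).trans (le_max_left _ _)).trans hK0n
  have k3 : 11200 ≤ n0 := ((le_max_left _ _).trans (le_max_right _ _)).trans hK0n
  have k4 : 8704 * C ≤ n0 := by
    have h1 : ⌈8704 * C⌉₊ ≤ n0 := ((le_max_right _ _).trans (le_max_right _ _)).trans hK0n
    exact (Nat.le_ceil _).trans (by exact_mod_cast h1)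
  set m : ℕ := 8 * (n0 + 1) with hm
  set A : ℕ := 3 * (n0 + m) with hA
  have hpot := pot (N0 := N0) (A := A) (N1 := N1) (x := x) (Y := Y) (C := C) hC.le
    (fun n hn hA B hB f hf => hq n hn A hA x B hB f hf) (n0 := n0) (by omega) (M := m) m n0 le_rfl
    k2 le_rfl le_rfl
  -- the potential at the start
  have hstart : (1 : ℝ) / 16 ≤ U N0 A n0 x (Gf A Y m n0) := by
    have h1 : U N0 A n0 x (fun _ => (1 / 4 : ℝ)) ≤ U N0 A n0 x (Gf A Y m n0) := by
      apply U_mono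
      intro w hw
      obtain ⟨hwF, hwn, _⟩ := mem_VW.1 hw
      obtain ⟨hwl, hwe⟩ := mem_FW.1 hwF
      have h2 := hwn n0 (hN.trans k1) hwl.ge
      rw [← hwl, List.take_length, hwl] at h2
      have h3 := GH A (Y := Y) m n0 w.sum (below hlow h2.2)
      have h4 := Hf_ge A Y m n0 w.sum (by omega) (by omega)
        (fun t ht => above hup (sum_le_of_mem hwF).1 ht)
      linarith
    rw [U_const] at h1
    have h2 := h A n0 k1 (by omega)
    linarith
  have herr : (m : ℝ) * (m * C / (n0 : ℝ) ^ 3) ≤ 1 / 32 := by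
    have hn0' : (1 : ℝ) ≤ n0 := by
      have : 1 ≤ n0 := by omega
      exact_mod_cast this
    have hm' : (m : ℝ) ≤ 16 * n0 := by
      rw [hm]; push_cast; linarith
    have h1 : (m : ℝ) * m ≤ 256 * n0 ^ 2 := by nlinarith [show (0 : ℝ) ≤ m by positivity]
    calc (m : ℝ) * (m * C / (n0 : ℝ) ^ 3) = (m * m) * C / n0 ^ 3 := by ring
      _ ≤ (256 * n0 ^ 2) * C / n0 ^ 3 := by
          apply div_le_div_of_nonneg_right _ (by positivity)
          exact mul_le_mul_of_nonneg_right h1 hC.le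
      _ = 256 * C / n0 := by field_simp
      _ ≤ 1 / 32 := by
          rw [div_le_iff₀ (by positivity)]
          linarith
  have hsum : (1 : ℝ) / 32 ≤ ∑ i ∈ range (m + 1), U N0 A (n0 + i) x (win Y (n0 + i)) := by
    linarith
  -- the words in the window
  set Sn : ℕ → Finset (List ℕ) := fun i => (VW N0 A (n0 + i) x).filter
    (fun w => win Y (n0 + i) w.sum = 1) with hSn
  have hlenS : ∀ i, ∀ w ∈ Sn i, w.length = n0 + i := by
    intro i w hw
    have h1 := (Finset.mem_filter.1 hw).1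
    exact (mem_FW.1 (mem_VW.1 h1).1).1
  have hSi : ∀ i, U N0 A (n0 + i) x (win Y (n0 + i)) ≤ (2 / Y) * (Sn i).card := by
    intro i
    rw [U_eq]
    calc ∑ w ∈ VW N0 A (n0 + i) x, (3 : ℝ) ^ (n0 + i) / 2 ^ w.sum * win Y (n0 + i) w.sum
        ≤ ∑ w ∈ VW N0 A (n0 + i) x, if win Y (n0 + i) w.sum = 1 then 2 / Y else 0 := by
          refine Finset.sum_le_sum fun w _ => ?_
          by_cases hw : win Y (n0 + i) w.sum = 1
          · rw [if_pos hw, hw, mul_one]
            unfold win at hw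
            split_ifs at hw with h1
            · rw [div_le_div_iff₀ (by positivity) hYpos]
              have h2 := h1.1
              rw [lt_div_iff₀ (by positivity)] at h2
              linarith
            · norm_num at hw
          · rw [if_neg hw]
            unfold win at hw ⊢
            split_ifs at hw ⊢ with h1
            · exact absurd rfl hw
            · simp
      _ = (2 / Y) * (Sn i).card := by
          rw [← Finset.sum_filter, Finset.sum_const, nsmul_eq_mul, mul_comm]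
  refine ⟨A, (range (m + 1)).biUnion Sn, ?_, ?_⟩
  · intro w hw
    obtain ⟨i, hir, hi⟩ := Finset.mem_biUnion.1 hw
    have h1 := Finset.mem_filter.1 hi
    rw [hlenS i w hi]
    have hi' : i ≤ m := by
      have := Finset.mem_range.1 hir
      omega
    refine ⟨h1.1, ?_, by omega, ?_⟩
    · have h2 := h1.2
      unfold win at h2
      split_ifs at h2 with h3
      · exact h3.2
      · norm_num at h2
    · have h5 : (n0 : ℝ) ≤ Real.log Y := by
        have h6 : (4 : ℝ) ^ n0 ≤ Y := by linarith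
        have h7 := Real.log_le_log (by positivity) h6
        rw [Real.log_pow] at h7
        have h8 : (1 : ℝ) ≤ Real.log 4 := by
          rw [Real.le_log_iff_exp_le (by norm_num)]
          have := Real.exp_one_lt_d9
          linarith
        have h9 : (0 : ℝ) ≤ n0 := by positivity
        nlinarith
      have h6 : (((n0 + i : ℕ)) : ℝ) ≤ 17 * n0 := by
        have : n0 + i ≤ 17 * n0 := by omega
        exact_mod_cast this
      linarith
  · rw [Finset.card_biUnion]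
    · push_cast
      have h1 : (1 : ℝ) / 32 ≤ (2 / Y) * ∑ i ∈ range (m + 1), ((Sn i).card : ℝ) := by
        rw [Finset.mul_sum]
        exact hsum.trans (Finset.sum_le_sum fun i _ => hSi i)
      have h2 : Y * (1 / 32) ≤ Y * ((2 / Y) * ∑ i ∈ range (m + 1), ((Sn i).card : ℝ)) :=
        mul_le_mul_of_nonneg_left h1 hYpos.le
      have h3 : Y * ((2 / Y) * ∑ i ∈ range (m + 1), ((Sn i).card : ℝ)) =
          2 * ∑ i ∈ range (m + 1), ((Sn i).card : ℝ) := mul_aux hYpos _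
      linarith
    · intro i _ j _ hij
      rw [Function.onFun, Finset.disjoint_left]
      intro w hw hw'
      have h1 := hlenS i w hw
      have h2 := hlenS j w hw'
      omega


/-- the uniform counting lemma -/
theorem count_unif (quenched : QStmt) {N0 N : ℕ} (hN : N0 ≤ N) :
    ∃ K : ℝ, 1 ≤ K ∧ ∀ Y : ℝ, K ≤ Y → ∀ x : ℤ,
      (∀ A n : ℕ, N ≤ n → 3 * n ≤ A → (1 / 4 : ℝ) ≤ U N0 A n x (fun _ => 1)) →
      ∃ S : Finset (List ℕ),
      (∀ w ∈ S, (∀ e ∈ w, 1 ≤ e) ∧ (3 : ℤ) ^ w.length ∣ 2 ^ w.sum * x - Wo w ∧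
        (2 : ℝ) ^ w.sum ≤ Y * 3 ^ w.length ∧ (Wo w : ℝ) ≤ 5 * 2 ^ N0 * 2 ^ w.sum ∧
        (w.length : ℝ) ≤ 17 * Real.log Y ∧ (w.sum : ℝ) ≤ 35 * Real.log Y) ∧
        Y / 64 ≤ S.card := by
  obtain ⟨K, hK1, hK⟩ := count_window_unif quenched hN
  refine ⟨K, hK1, fun Y hY x h => ?_⟩
  obtain ⟨A, S, hS, hc⟩ := hK Y hY x h
  refine ⟨S, fun w hw => ?_, hc⟩
  obtain ⟨h1, h2, h3, h4⟩ := hS w hw
  obtain ⟨h5, h6, h7⟩ := mem_VW.1 h1
  have h8 : ∀ e ∈ w, 1 ≤ e := fun e he => ((mem_FW.1 h5).2 e he).1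
  refine ⟨h8, h7, (div_le_iff₀ (by positivity)).1 h2, Wo_nice_le h8 h6, h4, ?_⟩
  have h9 := (h6 w.length h3 le_rfl).2
  rw [List.take_length] at h9
  have h10 : (20 : ℝ) * w.sum ≤ 41 * w.length := by exact_mod_cast h9
  have h11 : 0 ≤ Real.log Y := Real.log_nonneg (hK1.trans hY)
  linarith

end Pool.Agent.H366R2.PDK
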