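import Pool.Agent.H33.G.R_seed8.H320R2.PDFinalB
import Pool.Agent.H33.G.R_seed8.H366R2.KGenS
import Pool.Agent.H33.G.R_seed8.H366R2.PDUnif

/-! Positive density of backward trees of the `3x+k` maps: words and the hitting lemma. -/

set_option autoImplicit false

namespace Pool.Agent.H366R2.PDK

open Finset Pool.Agent.H320R2.PD Pool.Agent.H366R2.KGen

/-! ### the map and its words -/

theorem TK_even {k m : ℤ} (h : m % 2 = 0) : TK k m = m / 2 := by simp [TK, h]

theorem TK_odd {k m : ℤ} (h : m % 2 ≠ 0) : TK k m = (3 * m + k) / 2 := by simp [TK, h]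

theorem TK_two_mul (k m : ℤ) : TK k (2 * m) = m := by
  rw [TK_even (by omega)]; omega

/-- one letter -/
theorem TK_letter {k : ℤ} (hk : k % 2 = 1) {e : ℕ} (he : 1 ≤ e) {x b : ℤ}
    (hb : 3 * b + k = 2 ^ e * x) : (TK k)^[e] b = x := by
  obtain ⟨e', rfl⟩ : ∃ e', e = e' + 1 := ⟨e - 1, by omega⟩
  have h2 : (2 : ℤ) ^ (e' + 1) * x = 2 * (2 ^ e' * x) := by ring
  rw [h2] at hb
  rw [Function.iterate_succ_apply, TK_odd (by omega)]
  have : (3 * b + k) / 2 = 2 ^ e' * x := by omega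
  rw [this, TK_halves]

/-- number of odd steps -/
def codK (k : ℤ) : ℕ → ℤ → ℕ
  | 0, _ => 0
  | j + 1, z => (if z % 2 = 0 then 0 else 1) + codK k j (TK k z)

theorem codK_add (k : ℤ) (m n : ℕ) : ∀ z : ℤ,
    codK k (m + n) z = codK k m z + codK k n ((TK k)^[m] z) := by
  induction m with
  | zero => intro z; simp [codK]
  | succ m ih =>
    intro z
    rw [show m + 1 + n = (m + n) + 1 by ring, codK, codK, ih, Function.iterate_succ_apply]
    ring

theorem codK_halve (k : ℤ) (e : ℕ) (x : ℤ) : codK k e (2 ^ e * x) = 0 := by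
  induction e with
  | zero => simp [codK]
  | succ e ih =>
    have h : (2 : ℤ) ^ (e + 1) * x = 2 * (2 ^ e * x) := by ring
    rw [codK, h, TK_two_mul, ih, if_pos (by omega)]

theorem codK_letter {k : ℤ} (hk : k % 2 = 1) {e : ℕ} (he : 1 ≤ e) {x b : ℤ}
    (hb : 3 * b + k = 2 ^ e * x) : codK k e b = 1 := by
  obtain ⟨e', rfl⟩ : ∃ e', e = e' + 1 := ⟨e - 1, by omega⟩
  have h2 : (2 : ℤ) ^ (e' + 1) * x = 2 * (2 ^ e' * x) := by ring
  rw [h2] at hb
  have h3 : b % 2 ≠ 0 := by omega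
  rw [codK, if_neg h3, TK_odd h3]
  have : (3 * b + k) / 2 = 2 ^ e' * x := by omega
  rw [this, codK_halve]

/-- peeling off the first letter of a valid word -/
theorem word_consK {k : ℤ} {e : ℕ} {w : List ℕ} {x : ℤ}
    (h : (3 : ℤ) ^ (e :: w).length ∣ 2 ^ (e :: w).sum * x - k * Wo (e :: w)) :
    ∃ b : ℤ, 3 * b + k = 2 ^ e * x ∧ (3 : ℤ) ^ w.length ∣ 2 ^ w.sum * b - k * Wo w ∧
      (2 ^ (e :: w).sum * x - k * Wo (e :: w)) / 3 ^ (e :: w).length =
        (2 ^ w.sum * b - k * Wo w) / 3 ^ w.length := by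
  have e1 : (2 : ℤ) ^ (e :: w).sum * x - k * Wo (e :: w) =
      2 ^ w.sum * (2 ^ e * x - k) - 3 * (k * Wo w) := by
    simp only [List.sum_cons, Wo]
    push_cast
    ring
  have h3 : (3 : ℤ) ∣ 2 ^ w.sum * (2 ^ e * x - k) := by
    have h4 : (3 : ℤ) ∣ 2 ^ (e :: w).sum * x - k * Wo (e :: w) :=
      (dvd_pow_self 3 (by simp)).trans h
    rw [e1] at h4
    exact (dvd_sub_left (Dvd.intro _ rfl)).1 h4
  have h5 : (3 : ℤ) ∣ 2 ^ e * x - k := by
    have hc : IsCoprime (3 : ℤ) (2 ^ w.sum) := IsCoprime.pow_right (by norm_num)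
    exact hc.dvd_of_dvd_mul_left h3
  obtain ⟨b, hb⟩ := h5
  have e2 : (3 : ℤ) * (2 ^ w.sum * b - k * Wo w) = 2 ^ w.sum * (2 ^ e * x - k) - 3 * (k * Wo w) := by
    rw [hb]; ring
  refine ⟨b, by linarith, ?_, ?_⟩
  · have h6 : (3 : ℤ) ^ (e :: w).length ∣ 3 * (2 ^ w.sum * b - k * Wo w) := by
      rw [e2, ← e1]; exact h
    rw [List.length_cons, pow_succ, mul_comm ((3 : ℤ) ^ w.length)] at h6
    exact (mul_dvd_mul_iff_left (by norm_num)).1 h6
  · rw [e1, ← e2, List.length_cons, pow_succ, mul_comm ((3 : ℤ) ^ w.length)]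
    exact Int.mul_ediv_mul_of_pos _ _ (by norm_num)

theorem endpoint_reachK {k : ℤ} (hk : k % 2 = 1) {x : ℤ} {w : List ℕ} (hw : ∀ e ∈ w, 1 ≤ e)
    (h : (3 : ℤ) ^ w.length ∣ 2 ^ w.sum * x - k * Wo w) :
    (TK k)^[w.sum] ((2 ^ w.sum * x - k * Wo w) / 3 ^ w.length) = x := by
  induction w generalizing x with
  | nil => simp [Wo]
  | cons e w ih =>
    obtain ⟨b, hb, hd, hq⟩ := word_consK h
    rw [hq, List.sum_cons, Function.iterate_add_apply,
      ih (fun e he => hw e (List.mem_cons_of_mem _ he)) hd]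
    exact TK_letter hk (hw e List.mem_cons_self) hb

theorem endpoint_codK {k : ℤ} (hk : k % 2 = 1) {x : ℤ} {w : List ℕ} (hw : ∀ e ∈ w, 1 ≤ e)
    (h : (3 : ℤ) ^ w.length ∣ 2 ^ w.sum * x - k * Wo w) :
    codK k w.sum ((2 ^ w.sum * x - k * Wo w) / 3 ^ w.length) = w.length := by
  induction w generalizing x with
  | nil => simp [codK]
  | cons e w ih =>
    obtain ⟨b, hb, hd, hq⟩ := word_consK h
    have hw' : ∀ e ∈ w, 1 ≤ e := fun e he => hw e (List.mem_cons_of_mem _ he)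
    rw [hq, List.sum_cons, add_comm e, codK_add, ih hw' hd, endpoint_reachK hk hw' hd,
      codK_letter hk (hw e List.mem_cons_self) hb, List.length_cons]

/-- endpoints are distinct when the root is not periodic -/
theorem endpoint_injK {k : ℤ} (hk : k % 2 = 1) (hk0 : k ≠ 0)
    {x : ℤ} (hx : ∀ j, 1 ≤ j → (TK k)^[j] x ≠ x) {w w' : List ℕ}
    (hw : ∀ e ∈ w, 1 ≤ e) (hw' : ∀ e ∈ w', 1 ≤ e)
    (h : (3 : ℤ) ^ w.length ∣ 2 ^ w.sum * x - k * Wo w)
    (h' : (3 : ℤ) ^ w'.length ∣ 2 ^ w'.sum * x - k * Wo w')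
    (he : (2 ^ w.sum * x - k * Wo w) / 3 ^ w.length =
      (2 ^ w'.sum * x - k * Wo w') / 3 ^ w'.length) :
    w = w' := by
  have r := endpoint_reachK hk hw h
  have r' := endpoint_reachK hk hw' h'
  have c := endpoint_codK hk hw h
  have c' := endpoint_codK hk hw' h'
  rw [he] at r c
  have hs : w.sum = w'.sum := by
    rcases lt_trichotomy w.sum w'.sum with hlt | heq | hgt
    · exfalso
      obtain ⟨d, hd⟩ : ∃ d, w'.sum = d + w.sum := ⟨w'.sum - w.sum, by omega⟩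
      rw [hd, Function.iterate_add_apply] at r'
      rw [hd] at r
      rw [r] at r'
      exact hx d (by omega) r'
    · exact heq
    · exfalso
      obtain ⟨d, hd⟩ : ∃ d, w.sum = d + w'.sum := ⟨w.sum - w'.sum, by omega⟩
      rw [hd, Function.iterate_add_apply, r'] at r
      exact hx d (by omega) r
  rw [hs, c'] at c
  have hW : (Wo w : ℤ) = Wo w' := by
    have e1 := Int.ediv_mul_cancel h
    have e2 := Int.ediv_mul_cancel h'
    rw [he, c.symm, e2, hs] at e1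
    have e3 : k * (Wo w : ℤ) = k * Wo w' := by linarith
    exact mul_left_cancel₀ hk0 e3
  exact Wo_inj hw hw' c.symm hs (by exact_mod_cast hW)

/-! ### non-periodic points -/

theorem iter_periodicK {k x : ℤ} {p : ℕ} (h : (TK k)^[p] x = x) (m : ℕ) :
    (TK k)^[p * m] x = x := by
  rw [Function.iterate_mul]
  exact Function.iterate_fixed h m

theorem iter_modK {k x : ℤ} {p : ℕ} (h : (TK k)^[p] x = x) (n : ℕ) :
    (TK k)^[n] x = (TK k)^[n % p] x := by
  conv_lhs => rw [← Nat.mod_add_div n p, Function.iterate_add_apply, iter_periodicK h]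

/-- some `2^j a` is not periodic -/
theorem exists_nonperiodicK (k : ℤ) {a : ℤ} (ha : a ≠ 0) :
    ∃ j : ℕ, ∀ i, 1 ≤ i → (TK k)^[i] (2 ^ j * a) ≠ 2 ^ j * a := by
  by_contra hcon
  push Not at hcon
  obtain ⟨p, hp1, hp⟩ := hcon 0
  simp only [pow_zero, one_mul] at hp
  have hall : ∀ j : ℕ, ∃ i, i < p ∧ (TK k)^[i] a = 2 ^ j * a := by
    intro j
    obtain ⟨t, ht1, ht⟩ := hcon j
    obtain ⟨m, hm⟩ : ∃ m, t * (j + 1) = m + j := ⟨t * (j + 1) - j, by
      have : j + 1 ≤ t * (j + 1) := Nat.le_mul_of_pos_left _ ht1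
      omega⟩
    have h1 := iter_periodicK ht (j + 1)
    rw [hm, Function.iterate_add_apply, TK_halves] at h1
    refine ⟨m % p, Nat.mod_lt _ hp1, ?_⟩
    rw [← iter_modK hp, h1]
  choose i hi hi2 using hall
  obtain ⟨j, hj, j', hj', hne, heq⟩ := Finset.exists_ne_map_eq_of_card_lt_of_maps_to
    (s := Finset.range (p + 1)) (t := Finset.range p) (f := i) (by simp)
    (fun j _ => by simpa using hi j)
  have h1 := hi2 j
  have h2 := hi2 j'
  rw [heq, h2] at h1
  have h3 : (2 : ℤ) ^ j' = 2 ^ j := mul_right_cancel₀ ha h1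
  exact hne ((Int.pow_right_injective (by norm_num)) h3).symm

/-! ### the hitting lemma, uniform in the root -/

open Pool.Agent.H412R2 in
/-- every class mod `3^N` prime to 3 is hit by words whose number of letters is bounded
independently of the root -/
theorem hit_unif (N : ℕ) (r : ℤ) (hr : ¬ (3 : ℤ) ∣ r) :
    ∃ n₁ : ℕ, ∀ a : ℤ, ¬ (3 : ℤ) ∣ a → ∃ (E n s : ℕ) (z : ℤ), n ≤ n₁ ∧ z ∈ tr 3 E n s a ∧
      ((3 : ℤ) ^ N ∣ z - r ∨ (3 : ℤ) ^ N ∣ z - 2 * r) := by
  classical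
  set T := max 20 N with hT
  have hT20 : 20 ≤ T := le_max_left _ _
  have hNT : N ≤ T := le_max_right _ _
  have hc := c2_gt
  have hη : (0 : ℝ) ≤ c2 / 4 := by linarith
  set κ := ker 0 T hη hT20 with hκ
  set ε : ℝ := 1 / (2 * 3 ^ T) with hε
  have hε0 : 0 < ε := by positivity
  set Pr : ℤ → Prop := fun x => (3 : ℤ) ^ N ∣ x - r ∨ (3 : ℤ) ^ N ∣ x - 2 * r with hPr
  set g : ℤ → ℝ := fun x => (if Pr x then 1 else 0) - ε with hg
  have hPs : ∀ x y : ℤ, Pr (x + (3 : ℤ) ^ (T + 1) * y) ↔ Pr x := by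
    intro x y
    have hd : (3 : ℤ) ^ N ∣ (3 : ℤ) ^ (T + 1) * y :=
      Dvd.dvd.mul_right (pow_dvd_pow 3 (by omega)) y
    have e1 : x + (3 : ℤ) ^ (T + 1) * y - r = (x - r) + (3 : ℤ) ^ (T + 1) * y := by ring
    have e2 : x + (3 : ℤ) ^ (T + 1) * y - 2 * r = (x - 2 * r) + (3 : ℤ) ^ (T + 1) * y := by ring
    simp only [hPr]
    rw [e1, e2, dvd_add_left hd, dvd_add_left hd]
  have hgper : ∀ x y : ℤ, ¬ ((3 : ℕ) : ℤ) ∣ x → g (x + ((3 : ℕ) : ℤ) ^ (T + 1) * y) = g x := by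
    intro x y _
    simp only [hg]
    push_cast
    rw [if_congr (hPs x y) rfl rfl]
  have hpos : ∀ r0 ∈ Finset.Ico 1 3,
      0 < ∑ x ∈ (Finset.range (3 ^ (T + 1))).filter (fun x => x % 3 = r0), g (x : ℤ) := by
    intro r0 hr0
    have hr0' := Finset.mem_Ico.1 hr0
    set C := (Finset.range (3 ^ (T + 1))).filter (fun x => x % 3 = r0) with hC
    have hCc : (C.card : ℝ) = 3 ^ T := by
      have := class_card T r0 hr0
      rw [hC, this]; push_cast; ring
    obtain ⟨u, hu, hu3⟩ : ∃ u : ℤ, (u = r ∨ u = 2 * r) ∧ u % 3 = (r0 : ℤ) := by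
      have h1 : r % 3 = 1 ∨ r % 3 = 2 := by omega
      by_cases h2 : r % 3 = (r0 : ℤ)
      · exact ⟨r, Or.inl rfl, h2⟩
      · exact ⟨2 * r, Or.inr rfl, by omega⟩
    have hM : (0 : ℤ) < 3 ^ (T + 1) := by positivity
    set x0 := (u % 3 ^ (T + 1)).toNat with hx0
    have hx0c : ((x0 : ℕ) : ℤ) = u % 3 ^ (T + 1) := Int.toNat_of_nonneg (Int.emod_nonneg _ hM.ne')
    have hx0l : x0 < 3 ^ (T + 1) := by
      have := Int.emod_lt_of_pos u hM
      rw [← hx0c] at this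
      exact_mod_cast this
    have hx0d : ((x0 : ℕ) : ℤ) = u + 3 ^ (T + 1) * (-(u / 3 ^ (T + 1))) := by
      rw [hx0c, Int.emod_def]; ring
    have hx0m : x0 % 3 = r0 := by
      have h3 : ((x0 : ℕ) : ℤ) % 3 = u % 3 := by
        rw [hx0c]
        exact Int.emod_emod_of_dvd u (dvd_pow_self 3 (by omega))
      omega
    have hmem : x0 ∈ C := by
      rw [hC, Finset.mem_filter, Finset.mem_range]
      exact ⟨hx0l, hx0m⟩
    have hPx : Pr (x0 : ℤ) := by
      rw [hx0d, hPs]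
      simp only [hPr]
      rcases hu with h | h
      · left; rw [h]; simp
      · right; rw [h]; simp
    have hlow : (1 : ℝ) ≤ ∑ x ∈ C, (if Pr (x : ℤ) then (1 : ℝ) else 0) := by
      have := Finset.single_le_sum (f := fun x : ℕ => (if Pr (x : ℤ) then (1 : ℝ) else 0))
        (fun x _ => by split_ifs <;> norm_num) hmem
      simpa [hPx] using this
    have hsum : ∑ x ∈ C, g (x : ℤ) = (∑ x ∈ C, (if Pr (x : ℤ) then (1 : ℝ) else 0)) - 1 / 2 := by
      simp only [hg]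
      rw [Finset.sum_sub_distrib, Finset.sum_const, nsmul_eq_mul, hCc, hε]
      congr 1
      field_simp
    rw [hsum]
    linarith
  obtain ⟨n, _, hn⟩ := positive κ Nat.prime_three (by norm_num) (by omega) g hgper hpos
  refine ⟨T * n, fun a ha => ?_⟩
  have ha' : ¬ ((3 : ℕ) : ℤ) ∣ a := by exact_mod_cast ha
  obtain ⟨i, hin, hi⟩ := Finset.exists_lt_of_sum_lt (f := fun _ => (0 : ℝ))
    (by simpa using hn a ha')
  obtain ⟨s, z, hp, hz⟩ := path_of_pos κ g i a hi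
  refine ⟨6 * T, T * i, s, z, ?_, path_tr hp, ?_⟩
  · exact Nat.mul_le_mul_left T (Finset.mem_range.1 hin).le
  · by_contra hc
    simp only [hg] at hz
    rw [if_neg hc] at hz
    linarith

end Pool.Agent.H366R2.PDK
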