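import Pool.Agent.H33.G.R_seed8.H366R2.DensB
import Pool.Agent.H33.G.R_seed8.H320R2.PDPosAux
import Pool.Agent.H33.G.R_seed8.H320R2.PDQuenchedOf

/-! Positive density of backward trees of the `3x+k` maps: consequences, from the decay statement. -/

set_option autoImplicit false

namespace Pool.Agent.H366R2.PDK

open Finset Filter Pool.Agent.H320R2.PD Pool.Agent.H366R2.KGen

/-- the main theorem from the decay statement -/
theorem dens_k_dec (hd : DecayStmt)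
    (k : ℤ) (hk2 : k % 2 = 1) (hk3 : ¬ (3 : ℤ) ∣ k) (a : ℤ) (ha : ¬ (3 : ℤ) ∣ a) :
    ∃ c C X0 : ℝ, 0 < c ∧ ∀ X : ℝ, X0 ≤ X → ∃ S : Finset ℤ,
      (∀ z ∈ S, ((|z| : ℤ) : ℝ) ≤ X ∧ 0 < z * a ∧
        ∃ j : ℕ, (j : ℝ) ≤ C * Real.log X ∧ (TK k)^[j] z = a) ∧ c * X ≤ S.card :=
  dens_k_of (fun N0 => quenched_of hd N0) (good_class_of fun N0 => quenched_of hd N0)
    k hk2 hk3 a ha

/-- the same with the number of steps bounded by `C log |z|` -/
theorem dens_k_log (hd : DecayStmt)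
    (k : ℤ) (hk2 : k % 2 = 1) (hk3 : ¬ (3 : ℤ) ∣ k) (a : ℤ) (ha : ¬ (3 : ℤ) ∣ a) :
    ∃ c C X0 : ℝ, 0 < c ∧ 0 < C ∧ ∀ X : ℝ, X0 ≤ X → ∃ S : Finset ℤ,
      (∀ z ∈ S, ((|z| : ℤ) : ℝ) ≤ X ∧ 0 < z * a ∧
        ∃ j : ℕ, (j : ℝ) ≤ C * Real.log ((|z| : ℤ) : ℝ) ∧ (TK k)^[j] z = a) ∧ c * X ≤ S.card := by
  classical
  obtain ⟨c, C, X0, hc, hX⟩ := dens_k_dec hd k hk2 hk3 a ha
  refine ⟨c / 2, 2 * max C 1, max (max X0 1) ((6 / c) ^ 2), by positivity, by positivity,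
    fun X hXX => ?_⟩
  have hX0 : X0 ≤ X := ((le_max_left _ _).trans (le_max_left _ _)).trans hXX
  have hX1 : 1 ≤ X := ((le_max_right _ _).trans (le_max_left _ _)).trans hXX
  have hXc : (6 / c) ^ 2 ≤ X := (le_max_right _ _).trans hXX
  obtain ⟨S, hS, hcard⟩ := hX X hX0
  have hXp : 0 < X := by linarith
  set R : ℝ := Real.sqrt X with hR
  have hR1 : 1 ≤ R := by rw [hR]; exact Real.one_le_sqrt.2 hX1
  have hRc : 6 / c ≤ R := by
    rw [hR]; exact Real.le_sqrt_of_sq_le hXc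
  have hRR : R * R = X := Real.mul_self_sqrt hXp.le
  set S' := S.filter (fun z : ℤ => R ≤ ((|z| : ℤ) : ℝ)) with hS'
  refine ⟨S', ?_, ?_⟩
  · intro z hz
    rw [hS', Finset.mem_filter] at hz
    obtain ⟨h1, h2, j, h3, h4⟩ := hS z hz.1
    refine ⟨h1, h2, j, h3.trans ?_, h4⟩
    have h5 : Real.log X ≤ 2 * Real.log ((|z| : ℤ) : ℝ) := by
      have h6 : Real.log R ≤ Real.log ((|z| : ℤ) : ℝ) := Real.log_le_log (by linarith) hz.2
      have h7 : Real.log X = 2 * Real.log R := by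
        rw [← hRR, Real.log_mul (by linarith) (by linarith)]; ring
      linarith
    have h8 : 0 ≤ Real.log X := Real.log_nonneg hX1
    calc C * Real.log X ≤ max C 1 * Real.log X := mul_le_mul_of_nonneg_right (le_max_left _ _) h8
      _ ≤ max C 1 * (2 * Real.log ((|z| : ℤ) : ℝ)) :=
          mul_le_mul_of_nonneg_left h5 (by positivity)
      _ = _ := by ring
  · have h1 : (S.card : ℝ) ≤ S'.card + (2 * R + 1) := by
      have h2 := Finset.card_filter_add_card_filter_not (s := S)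
        (fun z : ℤ => R ≤ ((|z| : ℤ) : ℝ))
      have h3 : (S.filter (fun z : ℤ => ¬ R ≤ ((|z| : ℤ) : ℝ))).card ≤
          (Finset.Icc (-⌊R⌋) ⌊R⌋).card := by
        apply Finset.card_le_card
        intro z hz
        rw [Finset.mem_filter] at hz
        have h4 := not_le.1 hz.2
        have h5 : |z| ≤ ⌊R⌋ := Int.le_floor.2 h4.le
        rw [Finset.mem_Icc]
        exact ⟨(abs_le.1 h5).1, (abs_le.1 h5).2⟩
      have h6 : ((Finset.Icc (-⌊R⌋) ⌊R⌋).card : ℝ) ≤ 2 * R + 1 := by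
        rw [Int.card_Icc]
        have h7 : (0 : ℤ) ≤ ⌊R⌋ := Int.floor_nonneg.2 (by linarith)
        have h8 : (((⌊R⌋ + 1 - -⌊R⌋).toNat : ℤ) : ℝ) = 2 * (⌊R⌋ : ℝ) + 1 := by
          rw [Int.toNat_of_nonneg (by linarith)]; push_cast; ring
        have h9 : (⌊R⌋ : ℝ) ≤ R := Int.floor_le R
        have h10 : (((⌊R⌋ + 1 - -⌊R⌋).toNat : ℕ) : ℝ) = 2 * (⌊R⌋ : ℝ) + 1 := by exact_mod_cast h8
        rw [h10]
        linarith
      have h11 : ((S.filter (fun z : ℤ => ¬ R ≤ ((|z| : ℤ) : ℝ))).card : ℝ) ≤ 2 * R + 1 :=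
        le_trans (by exact_mod_cast h3) h6
      have h12 : ((S.filter (fun z : ℤ => R ≤ ((|z| : ℤ) : ℝ))).card : ℝ) +
          ((S.filter (fun z : ℤ => ¬ R ≤ ((|z| : ℤ) : ℝ))).card : ℝ) = S.card := by
        exact_mod_cast h2
      rw [hS']
      linarith
    have h13 : 2 * R + 1 ≤ c / 2 * X := by
      have h14 : 3 * R ≤ c / 2 * X := by
        have h15 : 6 ≤ R * c := by rwa [div_le_iff₀ hc] at hRc
        have : 6 * R ≤ (R * c) * R := mul_le_mul_of_nonneg_right h15 (by linarith)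
        have e : (R * c) * R = c * X := by rw [← hRR]; ring
        linarith
      linarith
    linarith

/-! ### counting functions -/

/-- from a linear lower bound to the lower density -/
theorem liminf_pos_of {F : ℝ → ℝ} {c X0 : ℝ} (hc : 0 < c) (h : ∀ X : ℝ, X0 ≤ X → c * X ≤ F X)
    {K : ℝ} (hK : ∀ X : ℝ, 1 ≤ X → F X ≤ K * X) :
    0 < Filter.liminf (fun X : ℝ => F X / X) Filter.atTop := by
  refine lt_of_lt_of_le hc ?_
  apply Filter.le_liminf_of_le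
  · apply Filter.IsCoboundedUnder.of_frequently_le (a := K)
    apply Filter.Eventually.frequently
    filter_upwards [eventually_ge_atTop (1 : ℝ)] with X hX
    rw [div_le_iff₀ (by linarith)]
    exact hK X hX
  · filter_upwards [eventually_ge_atTop (max X0 1)] with X hX
    have h1 : 1 ≤ X := (le_max_right _ _).trans hX
    rw [le_div_iff₀ (by linarith)]
    exact h X ((le_max_left _ _).trans hX)

/-- number of integers of absolute value at most `X` -/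
theorem ncard_abs_le (P : ℤ → Prop) {X : ℝ} (hX : 1 ≤ X) :
    ({n : ℤ | ((|n| : ℤ) : ℝ) ≤ X ∧ P n}.ncard : ℝ) ≤ 3 * X := by
  have h1 : {n : ℤ | ((|n| : ℤ) : ℝ) ≤ X ∧ P n} ⊆ ((Finset.Icc (-⌊X⌋) ⌊X⌋ : Finset ℤ) : Set ℤ) := by
    intro n hn
    have h5 : |n| ≤ ⌊X⌋ := Int.le_floor.2 hn.1
    rw [Finset.coe_Icc, Set.mem_Icc]
    exact ⟨(abs_le.1 h5).1, (abs_le.1 h5).2⟩
  have h2 := Set.ncard_le_ncard h1 (Finset.finite_toSet _)
  rw [Set.ncard_coe_finset, Int.card_Icc] at h2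
  have h7 : (0 : ℤ) ≤ ⌊X⌋ := Int.floor_nonneg.2 (by linarith)
  have h8 : (((⌊X⌋ + 1 - -⌊X⌋).toNat : ℤ) : ℝ) = 2 * (⌊X⌋ : ℝ) + 1 := by
    rw [Int.toNat_of_nonneg (by linarith)]; push_cast; ring
  have h9 : (⌊X⌋ : ℝ) ≤ X := Int.floor_le X
  have h10 : (((⌊X⌋ + 1 - -⌊X⌋).toNat : ℕ) : ℝ) = 2 * (⌊X⌋ : ℝ) + 1 := by exact_mod_cast h8
  have h11 : ({n : ℤ | ((|n| : ℤ) : ℝ) ≤ X ∧ P n}.ncard : ℝ) ≤
      (((⌊X⌋ + 1 - -⌊X⌋).toNat : ℕ) : ℝ) := by exact_mod_cast h2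
  rw [h10] at h11
  linarith

theorem finite_abs_le (P : ℤ → Prop) (X : ℝ) : {n : ℤ | ((|n| : ℤ) : ℝ) ≤ X ∧ P n}.Finite := by
  apply (Set.finite_Icc (-⌊X⌋) ⌊X⌋).subset
  intro n hn
  have h5 : |n| ≤ ⌊X⌋ := Int.le_floor.2 hn.1
  exact ⟨(abs_le.1 h5).1, (abs_le.1 h5).2⟩

/-- the lower density of the set of integers of the sign of `a` reaching `a` under `3x+k` in
logarithmic time is positive -/
theorem liminf_k (hd : DecayStmt) (k : ℤ) (hk2 : k % 2 = 1) (hk3 : ¬ (3 : ℤ) ∣ k) (a : ℤ)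
    (ha : ¬ (3 : ℤ) ∣ a) : ∃ C : ℝ, 0 < C ∧
    0 < Filter.liminf (fun X : ℝ => ({n : ℤ | ((|n| : ℤ) : ℝ) ≤ X ∧ (0 < n * a ∧
      ∃ j : ℕ, (j : ℝ) ≤ C * Real.log ((|n| : ℤ) : ℝ) ∧ (TK k)^[j] n = a)}.ncard : ℝ) / X)
        Filter.atTop := by
  obtain ⟨c, C, X0, hc, hC, h⟩ := dens_k_log hd k hk2 hk3 a ha
  refine ⟨C, hC, liminf_pos_of (X0 := X0) hc (fun X hX => ?_) (fun X hX => ncard_abs_le _ hX)⟩
  obtain ⟨S, hS, hcard⟩ := h X hX
  refine hcard.trans ?_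
  have h1 : (S : Set ℤ) ⊆ {n : ℤ | ((|n| : ℤ) : ℝ) ≤ X ∧ (0 < n * a ∧
      ∃ j : ℕ, (j : ℝ) ≤ C * Real.log ((|n| : ℤ) : ℝ) ∧ (TK k)^[j] n = a)} := by
    intro z hz
    obtain ⟨a1, a2, a3⟩ := hS z hz
    exact ⟨a1, a2, a3⟩
  have h2 := Set.ncard_le_ncard h1 (finite_abs_le _ X)
  rw [Set.ncard_coe_finset] at h2
  exact_mod_cast h2

/-! ### the 3x+1 map on the natural numbers -/

/-- the `3x+1` function on the natural numbers -/
def Tn (n : ℕ) : ℕ := if n % 2 = 0 then n / 2 else (3 * n + 1) / 2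

/-- the Collatz function on the natural numbers -/
def Cn (n : ℕ) : ℕ := if n % 2 = 0 then n / 2 else 3 * n + 1

/-- the Collatz function on the integers -/
def Cz (n : ℤ) : ℤ := if n % 2 = 0 then n / 2 else 3 * n + 1

theorem Tn_cast (j n : ℕ) : ((Tn^[j] n : ℕ) : ℤ) = (TK 1)^[j] (n : ℤ) := by
  induction j generalizing n with
  | zero => rfl
  | succ j ih =>
    rw [Function.iterate_succ_apply, Function.iterate_succ_apply, ih]
    congr 1
    simp only [Tn, TK]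
    split_ifs <;> omega

theorem Cn_cast (j n : ℕ) : ((Cn^[j] n : ℕ) : ℤ) = Cz^[j] (n : ℤ) := by
  induction j generalizing n with
  | zero => rfl
  | succ j ih =>
    rw [Function.iterate_succ_apply, Function.iterate_succ_apply, ih]
    congr 1
    simp only [Cn, Cz]
    split_ifs <;> omega

/-- `j` accelerated steps are at most `2 j` steps of the Collatz function -/
theorem Cz_of_TK (j : ℕ) (z : ℤ) : ∃ i ≤ 2 * j, Cz^[i] z = (TK 1)^[j] z := by
  induction j generalizing z with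
  | zero => exact ⟨0, le_rfl, rfl⟩
  | succ j ih =>
    obtain ⟨i, hi, h⟩ := ih (TK 1 z)
    rcases eq_or_ne (z % 2) 0 with h2 | h2
    · refine ⟨i + 1, by omega, ?_⟩
      rw [Function.iterate_succ_apply, Function.iterate_succ_apply, ← h]
      congr 1
      simp [Cz, TK, h2]
    · refine ⟨i + 2, by omega, ?_⟩
      rw [Function.iterate_add_apply, Function.iterate_succ_apply (TK 1), ← h]
      congr 1
      have h3 : Cz z = 3 * z + 1 := by simp [Cz, h2]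
      have h4 : TK 1 z = (3 * z + 1) / 2 := by simp [TK, h2]
      simp only [Function.iterate_succ, Function.iterate_zero, Function.comp_apply, id_eq]
      rw [h3, h4]
      unfold Cz
      rw [if_pos (by omega)]

/-- positive integers: linear lower bound with logarithmically many steps -/
theorem dens_nat (hd : DecayStmt) (a : ℕ) (ha0 : 0 < a) (ha : ¬ 3 ∣ a) :
    ∃ c C X0 : ℝ, 0 < c ∧ 0 < C ∧ ∀ X : ℝ, X0 ≤ X → ∃ S : Finset ℕ,
      (∀ n ∈ S, 0 < n ∧ (n : ℝ) ≤ X ∧ (∃ j : ℕ, (j : ℝ) ≤ C * Real.log n ∧ Tn^[j] n = a) ∧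
        ∃ j : ℕ, (j : ℝ) ≤ C * Real.log n ∧ Cn^[j] n = a) ∧ c * X ≤ S.card := by
  classical
  have ha' : ¬ (3 : ℤ) ∣ (a : ℤ) := by
    intro h; exact ha (by exact_mod_cast h)
  obtain ⟨c, C, X0, hc, hC, h⟩ := dens_k_log hd 1 (by norm_num) (by norm_num) a ha'
  refine ⟨c, 2 * C, X0, hc, by positivity, fun X hX => ?_⟩
  obtain ⟨S, hS, hcard⟩ := h X hX
  have hpos : ∀ z ∈ S, 0 < z := by
    intro z hz
    have h2 := (hS z hz).2.1
    have h3 : (0 : ℤ) < a := by exact_mod_cast ha0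
    by_contra hcon
    push Not at hcon
    have := mul_nonpos_of_nonpos_of_nonneg hcon h3.le
    linarith
  refine ⟨S.image Int.toNat, ?_, ?_⟩
  · intro n hn
    obtain ⟨z, hz, rfl⟩ := Finset.mem_image.1 hn
    obtain ⟨h1, h2, j, h3, h4⟩ := hS z hz
    have hz0 := hpos z hz
    have hzn : ((z.toNat : ℕ) : ℤ) = z := Int.toNat_of_nonneg hz0.le
    have hzr : ((z.toNat : ℕ) : ℝ) = (z : ℝ) := by exact_mod_cast congrArg (Int.cast : ℤ → ℝ) hzn
    rw [abs_of_pos hz0] at h1 h3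
    have hlog : 0 ≤ C * Real.log (z : ℝ) := le_trans (by positivity) h3
    refine ⟨by omega, by rw [hzr]; exact h1, ⟨j, by rw [hzr]; linarith, ?_⟩, ?_⟩
    · have := Tn_cast j z.toNat
      rw [hzn, h4] at this
      exact_mod_cast this
    · obtain ⟨i, hi, hi2⟩ := Cz_of_TK j z
      refine ⟨i, ?_, ?_⟩
      · rw [hzr]
        have : (i : ℝ) ≤ 2 * j := by exact_mod_cast hi
        linarith
      · have := Cn_cast i z.toNat
        rw [hzn, hi2, h4] at this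
        exact_mod_cast this
  · rw [Finset.card_image_of_injOn]
    · exact hcard
    · intro z hz z' hz' he
      have h1 := hpos z hz
      have h2 := hpos z' hz'
      omega

theorem ncard_nat_le (P : ℕ → Prop) {X : ℝ} (hX : 1 ≤ X) :
    ({n : ℕ | 0 < n ∧ (n : ℝ) ≤ X ∧ P n}.ncard : ℝ) ≤ 1 * X := by
  have h1 : {n : ℕ | 0 < n ∧ (n : ℝ) ≤ X ∧ P n} ⊆ ((Finset.Icc 1 ⌊X⌋₊ : Finset ℕ) : Set ℕ) := by
    intro n hn
    rw [Finset.coe_Icc, Set.mem_Icc]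
    exact ⟨hn.1, Nat.le_floor hn.2.1⟩
  have h2 := Set.ncard_le_ncard h1 (Finset.finite_toSet _)
  rw [Set.ncard_coe_finset, Nat.card_Icc] at h2
  have h3 : ((⌊X⌋₊ : ℕ) : ℝ) ≤ X := Nat.floor_le (by linarith)
  have h4 : ({n : ℕ | 0 < n ∧ (n : ℝ) ≤ X ∧ P n}.ncard : ℝ) ≤ ((⌊X⌋₊ + 1 - 1 : ℕ) : ℝ) := by
    exact_mod_cast h2
  rw [Nat.add_sub_cancel] at h4
  linarith

theorem finite_nat_le (P : ℕ → Prop) (X : ℝ) : {n : ℕ | 0 < n ∧ (n : ℝ) ≤ X ∧ P n}.Finite := by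
  apply (Set.finite_Iic ⌊X⌋₊).subset
  intro n hn
  exact Nat.le_floor hn.2.1

/-- a set of positive integers with a linear lower bound has positive lower density -/
theorem liminf_nat_of (P : ℕ → Prop) {c X0 : ℝ} (hc : 0 < c)
    (h : ∀ X : ℝ, X0 ≤ X → ∃ S : Finset ℕ, (∀ n ∈ S, 0 < n ∧ (n : ℝ) ≤ X ∧ P n) ∧
      c * X ≤ S.card) :
    0 < Filter.liminf (fun X : ℝ => ({n : ℕ | 0 < n ∧ (n : ℝ) ≤ X ∧ P n}.ncard : ℝ) / X)
      Filter.atTop := by
  refine liminf_pos_of (X0 := X0) hc (fun X hX => ?_) (fun X hX => ncard_nat_le P hX)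
  obtain ⟨S, hS, hcard⟩ := h X hX
  refine hcard.trans ?_
  have h1 : (S : Set ℕ) ⊆ {n : ℕ | 0 < n ∧ (n : ℝ) ≤ X ∧ P n} := fun z hz => hS z hz
  have h2 := Set.ncard_le_ncard h1 (finite_nat_le _ X)
  rw [Set.ncard_coe_finset] at h2
  exact_mod_cast h2

end Pool.Agent.H366R2.PDK
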